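import Pool.Agent.Helper78.JT.Goals2
import Pool.Agent.Helper8.DT.NPRCPW

/-!
Packet PJ4 for MP_34c247_lc (parameters).
-/

set_option autoImplicit false

namespace Pool.Agent.Helper79.JT

open Pool.Agent.Helper78.DT Pool.Agent.Helper78.JT

theorem pj4 (hT : TljStmt) : Pj4Stmt := by
  intro c a e β
  obtain ⟨h1, h2, L1, h3⟩ := hT a e
  obtain ⟨L2, hL2⟩ := h2 (7 + bb a e * (2 * c + 10))
  refine ⟨2 ^ β * (6 * (c + 9) + 1) + 8 + e + L1 + L2, fun L hL => ?_⟩
  have hL8 : 8 ≤ L := by omega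
  have hL1 : 1 ≤ L := by omega
  have hLe : e + 1 ≤ L := by omega
  have hLr : (8 : ℝ) ≤ L := by exact_mod_cast hL8
  have hLer : (e : ℝ) + 1 ≤ L := by exact_mod_cast hLe
  have hLp : (0 : ℝ) < L := by linarith
  obtain ⟨hb1, hb2, hb3, hb4⟩ := h1 L hL1
  obtain ⟨hd1, hd2⟩ := h3 L (by omega)
  have ht := hL2 L (by omega)
  have hK0 : 0 < Kj c a β e L := by
    unfold Kj
    positivity
  have hK : Kj c a β e L ≤ L ^ 2 := by
    unfold Kj WW
    have h1 : 6 * ((c + 9) * L) / (tj a e L + 1) ≤ 6 * ((c + 9) * L) := Nat.div_le_self _ _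
    calc 2 ^ β * (6 * ((c + 9) * L) / (tj a e L + 1) + 1)
        ≤ 2 ^ β * (6 * ((c + 9) * L) + L) := Nat.mul_le_mul_left _ (by omega)
      _ = (2 ^ β * (6 * (c + 9) + 1)) * L := by ring
      _ ≤ L * L := Nat.mul_le_mul_right _ (by omega)
      _ = L ^ 2 := (sq L).symm
  have hKr : (Kj c a β e L : ℝ) ≤ (L : ℝ) ^ 2 := by exact_mod_cast hK
  have hKr0 : (0 : ℝ) ≤ Kj c a β e L := Nat.cast_nonneg _
  have hDr : (Dj a e L : ℝ) ≤ L := by exact_mod_cast hd2
  have hP : L ^ (c + 8) ≤ Pj c L := (Pool.Agent.Helper8.DT.npr (L ^ (c + 8)) (by positivity)).2.1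
  have hP2 : Pj c L ≤ 2 * L ^ (c + 8) :=
    (Pool.Agent.Helper8.DT.npr (L ^ (c + 8)) (by positivity)).2.2
  have hPr : (L : ℝ) ^ (c + 8) ≤ Pj c L := by exact_mod_cast hP
  have hP0 : (0 : ℝ) < (L : ℝ) ^ (c + 8) := by positivity
  have hPp : (0 : ℝ) < Pj c L := lt_of_lt_of_le hP0 hPr
  refine ⟨hK0, hK, ?_, ?_, ?_, ?_⟩
  · unfold δj
    calc (Kj c a β e L : ℝ) * (((e : ℝ) + 1) * (1 / (64 * (L : ℝ) ^ (c + 3))))
        ≤ (L : ℝ) ^ 2 * ((L : ℝ) * (1 / (64 * (L : ℝ) ^ (c + 3)))) := by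
          refine mul_le_mul hKr ?_ (by positivity) (by positivity)
          exact mul_le_mul_of_nonneg_right hLer (by positivity)
      _ = 1 / (64 * (L : ℝ) ^ c) := by
          rw [pow_add]
          field_simp
  · -- the third inequality
    set t := tj a e L with htdef
    set b := bb a e with hbdef
    have hD1 : 1 ≤ Dj a e L := Nat.one_le_two_pow
    have hexp : 6 + b * (t + 1) * (c + 2) + (b * (t + 1) * (c + 8) + 1) * Dj a e L ≤
        Dj a e L * 2 ^ (2 * t) := by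
      have h5 : 7 + b * (t + 1) * (2 * c + 10) ≤ 2 ^ (2 * t) := by
        have h6 : t + 1 ≤ 2 ^ t := Nat.lt_two_pow_self
        calc 7 + b * (t + 1) * (2 * c + 10) ≤ (7 + b * (2 * c + 10)) * (t + 1) := by nlinarith
          _ ≤ t * (t + 1) := Nat.mul_le_mul_right _ ht
          _ ≤ 2 ^ t * 2 ^ t := Nat.mul_le_mul (by omega) h6
          _ = 2 ^ (2 * t) := by rw [two_mul, pow_add]
      calc 6 + b * (t + 1) * (c + 2) + (b * (t + 1) * (c + 8) + 1) * Dj a e L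
          ≤ (6 + b * (t + 1) * (c + 2)) * Dj a e L + (b * (t + 1) * (c + 8) + 1) * Dj a e L :=
            Nat.add_le_add_right (Nat.le_mul_of_pos_right _ hD1) _
        _ = Dj a e L * (7 + b * (t + 1) * (2 * c + 10)) := by ring
        _ ≤ Dj a e L * 2 ^ (2 * t) := Nat.mul_le_mul_left _ h5
    have hLb : L ≤ 2 ^ (b * (t + 1)) := hb2.le
    have hPb : Pj c L ≤ 2 ^ (b * (t + 1) * (c + 8) + 1) := by
      calc Pj c L ≤ 2 * L ^ (c + 8) := hP2
        _ ≤ 2 * (2 ^ (b * (t + 1))) ^ (c + 8) :=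
            Nat.mul_le_mul_left _ (Nat.pow_le_pow_left hLb _)
        _ = 2 ^ (b * (t + 1) * (c + 8) + 1) := by rw [← pow_mul, pow_succ, mul_comm]
    have hR : 2 ^ (Uj a e L ^ (e + 1)) ≤ Rj a e L e :=
      (Pool.Agent.Helper8.DT.npr (2 ^ (Uj a e L ^ (e + 1))) (by positivity)).2.1
    have hmain : 64 * L ^ (c + 2) * Pj c L ^ Dj a e L ≤ Rj a e L e := by
      calc 64 * L ^ (c + 2) * Pj c L ^ Dj a e L
          ≤ 2 ^ 6 * (2 ^ (b * (t + 1))) ^ (c + 2) *
            (2 ^ (b * (t + 1) * (c + 8) + 1)) ^ Dj a e L := by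
            refine Nat.mul_le_mul ?_ (Nat.pow_le_pow_left hPb _)
            exact Nat.mul_le_mul (by norm_num) (Nat.pow_le_pow_left hLb _)
        _ = 2 ^ (6 + b * (t + 1) * (c + 2) + (b * (t + 1) * (c + 8) + 1) * Dj a e L) := by
            rw [← pow_mul, ← pow_mul, pow_add, pow_add]
        _ ≤ 2 ^ (Dj a e L * 2 ^ (2 * t)) := Nat.pow_le_pow_right (by norm_num) hexp
        _ ≤ 2 ^ (Uj a e L ^ (e + 1)) := Nat.pow_le_pow_right (by norm_num) hd1
        _ ≤ Rj a e L e := hR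
    have hmr : 64 * (L : ℝ) ^ (c + 2) * (Pj c L : ℝ) ^ Dj a e L ≤ Rj a e L e := by
      exact_mod_cast hmain
    have hRp : (0 : ℝ) < Rj a e L e := lt_of_lt_of_le (by positivity) hmr
    calc (Kj c a β e L : ℝ) * ((Pj c L : ℝ) ^ Dj a e L / Rj a e L e)
        ≤ (L : ℝ) ^ 2 * ((Pj c L : ℝ) ^ Dj a e L / Rj a e L e) :=
          mul_le_mul_of_nonneg_right hKr (by positivity)
      _ = ((L : ℝ) ^ 2 * (Pj c L : ℝ) ^ Dj a e L) / Rj a e L e := by ring
      _ ≤ 1 / (64 * (L : ℝ) ^ c) := by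
          rw [div_le_div_iff₀ hRp (by positivity)]
          calc (L : ℝ) ^ 2 * (Pj c L : ℝ) ^ Dj a e L * (64 * (L : ℝ) ^ c)
              = 64 * (L : ℝ) ^ (c + 2) * (Pj c L : ℝ) ^ Dj a e L := by
                rw [pow_add]
                ring
            _ ≤ 1 * Rj a e L e := by rw [one_mul]; exact hmr
  · calc (Kj c a β e L : ℝ) * ((Dj a e L : ℝ) / Pj c L)
        ≤ (L : ℝ) ^ 2 * ((L : ℝ) / (L : ℝ) ^ (c + 8)) := by
          refine mul_le_mul hKr ?_ (by positivity) (by positivity)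
          exact div_le_div₀ hLp.le hDr hP0 hPr
      _ = 1 / ((L : ℝ) ^ 5 * (L : ℝ) ^ c) := by
          rw [pow_add]
          field_simp
      _ ≤ 1 / (64 * (L : ℝ) ^ c) := by
          refine one_div_le_one_div_of_le (by positivity) ?_
          refine mul_le_mul_of_nonneg_right ?_ (by positivity)
          calc (64 : ℝ) ≤ 8 ^ 5 := by norm_num
            _ ≤ (L : ℝ) ^ 5 := pow_le_pow_left₀ (by norm_num) hLr 5
  · intro r hr
    have h5 : r * (tj a e L * sj a e L) ≤ L := (hb4 r hr).2.trans hd2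
    have h5r : ((r * (tj a e L * sj a e L) : ℕ) : ℝ) ≤ L := by exact_mod_cast h5
    have h6 : ((r * (tj a e L * sj a e L) : ℕ) : ℝ) ^ 2 * L / Pj c L ≤
        (L : ℝ) ^ 2 * L / (L : ℝ) ^ (c + 8) := by
      refine div_le_div₀ (by positivity) ?_ hP0 hPr
      exact mul_le_mul_of_nonneg_right (pow_le_pow_left₀ (by positivity) h5r 2) hLp.le
    calc (Kj c a β e L : ℝ) * (((r * (tj a e L * sj a e L) : ℕ) : ℝ) ^ 2 * L / Pj c L)
        ≤ (L : ℝ) ^ 2 * ((L : ℝ) ^ 2 * L / (L : ℝ) ^ (c + 8)) :=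
          mul_le_mul hKr h6 (by positivity) (by positivity)
      _ = 1 / ((L : ℝ) ^ 3 * (L : ℝ) ^ c) := by
          rw [pow_add]
          field_simp
      _ ≤ 1 / (64 * (L : ℝ) ^ c) := by
          refine one_div_le_one_div_of_le (by positivity) ?_
          refine mul_le_mul_of_nonneg_right ?_ (by positivity)
          calc (64 : ℝ) ≤ 8 ^ 3 := by norm_num
            _ ≤ (L : ℝ) ^ 3 := pow_le_pow_left₀ (by norm_num) hLr 3

end Pool.Agent.Helper79.JT
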